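import Pool.Agent.P.MP_6d14ae_al.Ord

namespace Pool.Agent.Results.MP_6d14ae_al.CoprimeOrder

open Pool.Agent.P.MP_6d14ae_al

theorem result (k r : ℕ) :
    List.TFAE
      [∃ (X : Type) (_ : Fintype X) (_ : Nontrivial X) (σ : X → Equiv.Perm X),
        (∀ x y z, σ (σ x y) (σ x z) = σ (σ y x) (σ y z)) ∧
        (¬ ∃ Y Z : Set X, Y.Nonempty ∧ Z.Nonempty ∧ Disjoint Y Z ∧ Y ∪ Z = Set.univ ∧
          (∀ y ∈ Y, ∀ z ∈ Z, σ y z ∈ Z) ∧ (∀ z ∈ Z, ∀ y ∈ Y, σ z y ∈ Y)) ∧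
        (Fintype.card X).primeFactors.card = r ∧
        ∃ x, orderOf (σ x) = k ∧ Nat.Coprime k (Fintype.card X),
      ∃ (X : Type) (_ : Fintype X) (_ : Nontrivial X) (σ : X → Equiv.Perm X),
        (∀ x y z, σ (σ x y) (σ x z) = σ (σ y x) (σ y z)) ∧
        (¬ ∃ Y Z : Set X, Y.Nonempty ∧ Z.Nonempty ∧ Disjoint Y Z ∧ Y ∪ Z = Set.univ ∧
          (∀ y ∈ Y, ∀ z ∈ Z, σ y z ∈ Z) ∧ (∀ z ∈ Z, ∀ y ∈ Y, σ z y ∈ Y)) ∧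
        (Fintype.card X).primeFactors.card = r ∧
        ∃ x, orderOf (σ x) = k ∧ Nat.Coprime k (Fintype.card X) ∧
          ∃ y, Function.minimalPeriod (σ x) y = k,
      3 ≤ k ∧ 2 ≤ r] := by
  tfae_have 2 → 1 := fun ⟨X, i, j, σ, ax, hI, h, x, h1, h2, _⟩ => ⟨X, i, j, σ, ax, hI, h, x, h1, h2⟩
  tfae_have 1 → 3 := fun ⟨X, i, j, σ, ax, hI, h, x, h1, h2⟩ =>
    (ordSw k r False).1 ⟨X, i, j, σ, ax, hI, h, x, h1, h2, False.elim⟩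
  tfae_have 3 → 2 := fun h =>
    let ⟨X, i, j, σ, ax, hI, h, x, h1, h2, h3⟩ := (ordSw k r True).2 h
    ⟨X, i, j, σ, ax, hI, h, x, h1, h2, h3 trivial⟩
  tfae_finish

end Pool.Agent.Results.MP_6d14ae_al.CoprimeOrder
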