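import Pool.Agent.P.MP_6d14ae_al.S.Base

namespace Pool.Agent.Results.MP_6d14ae_al.ShortCoprimeCycles

open Pool.Agent.P.MP_6d14ae_al Pool.Agent.P.MP_6d14ae_al.J

theorem result (X : Type) [Fintype X] [Nonempty X] (σ : X → Equiv.Perm X)
    (ax : ∀ x y z, σ (σ x y) (σ x z) = σ (σ y x) (σ y z))
    (hI : ¬ ∃ Y Z : Set X, Y.Nonempty ∧ Z.Nonempty ∧ Disjoint Y Z ∧ Y ∪ Z = Set.univ ∧
      (∀ y ∈ Y, ∀ z ∈ Z, σ y z ∈ Z) ∧ (∀ z ∈ Z, ∀ y ∈ Y, σ z y ∈ Y)) :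
    ∃ m : ℕ, 0 < m ∧ (∀ p : ℕ, p.Prime → p ∣ Fintype.card X → p * m ≤ Fintype.card X) ∧
      ∀ g ∈ Subgroup.closure (Set.range σ), ∀ (y : X) (k : ℕ),
        k ∣ Function.minimalPeriod g y → Nat.Coprime k (Fintype.card X) → k ∣ m := by
  have : MulAction.IsPretransitive (GG σ) X := ⟨fun a v =>
    all_of_indec hI (fun v => ∃ g : GG σ, g • a = v)
      (fun z v ⟨g, hg⟩ => ⟨sg σ z * g, by rw [mul_smul, hg]; rfl⟩) a ⟨1, one_smul _ _⟩ v⟩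
  obtain ⟨E, _, _, κ, a, hκ, ha, hg, -⟩ := exists_brace ax
  obtain ⟨m, m0, h1, h2⟩ := S.short κ hκ a ha hg
  rw [Nat.card_eq_fintype_card] at h1 h2
  refine ⟨m, m0, h1, fun g hg y k hk kn => h2 ⟨g, hg⟩ k (hk.trans ?_) kn⟩
  refine Function.IsPeriodicPt.minimalPeriod_dvd ?_
  rw [← Subgroup.orderOf_coe, Function.IsPeriodicPt, Function.IsFixedPt,
    ← Equiv.Perm.coe_pow, pow_orderOf_eq_one]
  rfl

end Pool.Agent.Results.MP_6d14ae_al.ShortCoprimeCycles
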