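import Pool.Agent.P.MP_6d14ae_al.Z.All

namespace Pool.Agent.Results.MP_6d14ae_al.SingularPrimes

open Pool.Agent.P.MP_6d14ae_al Pool.Agent.P.MP_6d14ae_al.J

theorem result (n r : ℕ) (hn : 0 < n) (hr : r.Prime) (hrn : ¬ r ∣ n) :
    (∃ (X : Type) (_ : Fintype X) (σ : X → Equiv.Perm X), Fintype.card X = n ∧
      (∀ x y z, σ (σ x y) (σ x z) = σ (σ y x) (σ y z)) ∧
      (¬ ∃ Y Z : Set X, Y.Nonempty ∧ Z.Nonempty ∧ Disjoint Y Z ∧ Y ∪ Z = Set.univ ∧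
        (∀ y ∈ Y, ∀ z ∈ Z, σ y z ∈ Z) ∧ (∀ z ∈ Z, ∀ y ∈ Y, σ z y ∈ Y)) ∧
      r ∣ Nat.card (Subgroup.closure (Set.range σ))) ↔
    ((∃ p e : ℕ, p.Prime ∧ 0 < e ∧ p ^ (2 * e) ∣ n ∧ r ∣ p ^ e - 1) ∨
      ∃ p : ℕ, p.Prime ∧ p ∣ orderOf (p : ZMod r) ∧ p ^ (orderOf (p : ZMod r) + 1) ∣ n) ∧
    (r = 2 → 3 ≤ n.primeFactorsList.length) := by
  constructor
  · rintro ⟨X, _, σ, h0, ax, hI, hG⟩
    have : MulAction.IsPretransitive (GG σ) X := ⟨fun a v =>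
      all_of_indec hI (fun v => ∃ g : GG σ, g • a = v)
        (fun z v ⟨g, hg⟩ => ⟨sg σ z * g, by rw [mul_smul, hg]; rfl⟩) a ⟨1, one_smul _ _⟩ v⟩
    obtain ⟨E, _, _, κ, a, hκ, ha, hg, hs⟩ := exists_brace ax
    rw [← Nat.card_eq_fintype_card] at h0
    have N := T.sing κ hκ a ha hg hr hG (h0 ▸ hrn)
    have N' := Z.necAll κ hκ a ha hg hr hG (h0 ▸ hrn)
    rw [h0] at N N'
    refine ⟨N', ?_⟩
    rintro rfl
    obtain ⟨p, e, hp, he, h1, -⟩ := N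
    obtain ⟨m, rfl, p2, m2, hl⟩ := V.shape hn hrn hp he h1
    have m0 : m ≠ 0 := right_ne_zero_of_mul hn.ne'
    have m1 : m ≠ 1 := by
      rintro rfl
      exact V.small κ hκ a ha hg hp p2 (Or.inl rfl) hp.not_dvd_one m2 h0 hG fun h => (h rfl).elim
    have l0 : m.primeFactorsList.length ≠ 0 := fun h => by
      simpa [m0, m1] using List.length_eq_zero_iff.1 h
    omega
  rintro ⟨⟨p, e, hp, he, h1, h2⟩ | ⟨p, hp, h1, h2⟩, h3⟩
  swap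
  · exact Z.tw hn hr hrn hp h1 h2
  by_cases hC : U.Cyc n r
  · obtain ⟨X, _, σ, h0, ax, hI, x, y, k⟩ := hC
    refine ⟨X, _, σ, h0, ax, hI, k ▸ (Function.IsPeriodicPt.minimalPeriod_dvd ?_)⟩
    have h1 : σ x ^ Nat.card (GG σ) = 1 :=
      congrArg Subtype.val (pow_card_eq_one' (x := sg σ x))
    show (σ x)^[Nat.card (GG σ)] y = y
    rw [← Equiv.Perm.coe_pow, h1]
    rfl
  obtain ⟨rfl, -⟩ := Classical.not_imp.1 fun h4 => hC (U.suf hn hr hrn hp he h1 h2 h4)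
  obtain ⟨m, rfl, p2, m2, hl⟩ := V.shape hn hrn hp he ((pow_dvd_pow p (by omega)).trans h1)
  have m1 : m ≠ 1 := by
    rintro rfl
    have := h3 rfl
    rw [hl] at this
    simp at this
  exact V.conC (q := p) (m := m) (by have := hp.two_le; omega) (by omega)

end Pool.Agent.Results.MP_6d14ae_al.SingularPrimes
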