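import Pool.Agent.P.MP_6d14ae_al.Z.All
import Pool.Agent.P.MP_6d14ae_al.Z.Ali
import Pool.Agent.P.MP_6d14ae_al.W.Ae
import Pool.Agent.P.MP_6d14ae_al.C.Ex2
import Pool.Agent.P.MP_6d14ae_al.B.All
import Pool.Agent.P.MP_6d14ae_al.F.All

namespace Pool.Agent.Results.MP_6d14ae_al.SizeThreshold

open Pool.Agent.P.MP_6d14ae_al Pool.Agent.P.MP_6d14ae_al.J

theorem result (n r : ℕ) (hn : 0 < n) (hr : r.Prime) (hrn : ¬ r ∣ n) :
    List.TFAE
      [∃ (X : Type) (_ : Fintype X) (σ : X → Equiv.Perm X), Fintype.card X = n ∧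
        (∀ x y z, σ (σ x y) (σ x z) = σ (σ y x) (σ y z)) ∧
        (¬ ∃ Y Z : Set X, Y.Nonempty ∧ Z.Nonempty ∧ Disjoint Y Z ∧ Y ∪ Z = Set.univ ∧
          (∀ y ∈ Y, ∀ z ∈ Z, σ y z ∈ Z) ∧ (∀ z ∈ Z, ∀ y ∈ Y, σ z y ∈ Y)) ∧
        ∃ x y, Function.minimalPeriod (σ x) y = r,
      ∃ (X : Type) (_ : Fintype X) (σ : X → Equiv.Perm X), Fintype.card X = n ∧
        (∀ x y z, σ (σ x y) (σ x z) = σ (σ y x) (σ y z)) ∧
        (¬ ∃ Y Z : Set X, Y.Nonempty ∧ Z.Nonempty ∧ Disjoint Y Z ∧ Y ∪ Z = Set.univ ∧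
          (∀ y ∈ Y, ∀ z ∈ Z, σ y z ∈ Z) ∧ (∀ z ∈ Z, ∀ y ∈ Y, σ z y ∈ Y)) ∧
        ∃ x y, r ∣ Function.minimalPeriod (σ x) y ∧ (Function.minimalPeriod (σ x) y).Coprime n,
      ((∃ p e : ℕ, p.Prime ∧ 0 < e ∧ p ^ (2 * e) ∣ n ∧ r ∣ p ^ e - 1) ∨
        ∃ p k : ℕ, p.Prime ∧ p ∣ orderOf (p : ZMod r) ∧ n = p ^ (orderOf (p : ZMod r) + 1) * k ∧
          (p ∣ k ∨ (¬ Squarefree k ∧ k ≠ 4))) ∧
        (r = 2 → 4 ≤ n.primeFactorsList.length ∨ n = 27)] := by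
  tfae_have 1 → 2 := fun ⟨X, _, σ, h0, ax, hI, x, y, k⟩ =>
    ⟨X, _, σ, h0, ax, hI, x, y, k ▸ dvd_rfl, k ▸ hr.coprime_iff_not_dvd.2 hrn⟩
  tfae_have 2 → 3 := by
    rintro ⟨X, _, σ, h0, ax, hI, x, y, k, l⟩
    have hG : r ∣ Nat.card (GG σ) := by
      refine k.trans (Function.IsPeriodicPt.minimalPeriod_dvd ?_)
      have h1 : σ x ^ Nat.card (GG σ) = 1 :=
        congrArg Subtype.val (pow_card_eq_one' (x := sg σ x))
      show (σ x)^[Nat.card (GG σ)] y = y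
      rw [← Equiv.Perm.coe_pow, h1]
      rfl
    have : MulAction.IsPretransitive (GG σ) X := ⟨fun a v =>
      all_of_indec hI (fun v => ∃ g : GG σ, g • a = v)
        (fun z v ⟨g, hg⟩ => ⟨sg σ z * g, by rw [mul_smul, hg]; rfl⟩) a ⟨1, one_smul _ _⟩ v⟩
    obtain ⟨E, _, _, κ, a, hκ, ha, hg, hs⟩ := exists_brace ax
    rw [← Nat.card_eq_fintype_card] at h0
    have N := T.sing κ hκ a ha hg hr hG (h0 ▸ hrn)
    have N' := Z.necAll κ hκ a ha hg hr hG (h0 ▸ hrn)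
    rw [h0] at N N'
    have per : (sg σ x)⁻¹ ^ Function.minimalPeriod (σ x) y • y = y := by
      rw [inv_pow, inv_smul_eq_iff]
      exact (Function.isPeriodicPt_minimalPeriod (σ x) y).eq.symm.trans
        (by rw [← Equiv.Perm.coe_pow]; rfl)
    refine ⟨N'.imp_right ?_, ?_⟩
    · rintro ⟨p, hp, h1, m, hk⟩
      refine ⟨p, m, hp, h1, hk, by_contra fun sq => ?_⟩
      rw [not_or, not_and_or, not_not, not_not] at sq
      rcases sq.2 with sf | rfl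
      · exact W.tight' κ hκ a ha hg hp hr sf sq.1
          (h0.trans hk) (h0 ▸ hrn) hG (fun e => hp.not_dvd_one (e ▸ h1)) (hs x) per (h0 ▸ l)
      have := Fact.mk hr
      have p2 : p ≠ 2 := fun e => sq.1 (by rw [e]; decide)
      have p0 : (p : ZMod r) ≠ 0 := fun e => hrn (((ZMod.natCast_eq_zero_iff p r).1 e).trans
        (hk ▸ (dvd_pow_self p (Nat.succ_ne_zero _)).mul_right 4))
      have o1 := Nat.le_of_dvd (Nat.sub_pos_of_lt hr.one_lt) (ZMod.orderOf_dvd_card_sub_one p0)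
      have o2 := Nat.le_of_dvd (Nat.pos_of_dvd_of_pos (ZMod.orderOf_dvd_card_sub_one p0)
        (Nat.sub_pos_of_lt hr.one_lt)) h1
      have := hp.two_le
      refine F.nec4 κ hκ a ha hg hp hr p2 (by omega) (h0.trans hk) (h0 ▸ hrn)
        (fun i => (Z.ord_iff hp.pos i).1) (by omega) (hs x) per (h0 ▸ l) fun j hj =>
          k.trans (Function.IsPeriodicPt.minimalPeriod_dvd ?_)
      rw [inv_pow, inv_smul_eq_iff] at hj
      show (σ x)^[j] y = y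
      rw [← Equiv.Perm.coe_pow]
      exact hj.symm
    rintro rfl
    obtain ⟨p, e, hp, he, h1, -⟩ := N
    obtain ⟨m, rfl, p2, m2, hl⟩ := V.shape hn hrn hp he h1
    have m0 : m ≠ 0 := right_ne_zero_of_mul hn.ne'
    by_contra h5
    rw [not_or] at h5
    have hm := V.len_le m0 (by omega)
    by_cases pm : p ∣ m
    · obtain rfl : p = m := (Nat.prime_dvd_prime_iff_eq hp
        (hm.resolve_left fun e => hp.not_dvd_one (e ▸ pm))).1 pm
      refine B.cube3 κ hκ a ha hg hp ?_ (h0.trans (pow_succ p 2).symm) hG (hs x) per fun h =>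
        hp.one_lt.ne' (Nat.eq_one_of_dvd_coprimes l h (dvd_mul_left _ _))
      by_contra h6
      have := hp.two_le
      have : p ≠ 3 := fun e => h5.2 (by rw [e]; rfl)
      have : p ≠ 4 := fun e => absurd (e ▸ hp) (by decide)
      omega
    · exact V.small κ hκ a ha hg hp p2 hm pm m2 h0 hG fun m1 => ⟨x, y, _, _, hs x, per, fun h =>
        m1 (Nat.eq_one_of_dvd_coprimes l h (dvd_mul_left _ _))⟩
  tfae_have 3 → 1 := by
    rintro ⟨⟨p, e, hp, he, h1, h2⟩ | ⟨p, k, hp, h1, h2, sq⟩, h3⟩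
    · by_cases h : r = 2 ∧ n = 27
      · exact h.1 ▸ h.2 ▸ B.ex27
      exact U.suf hn hr hrn hp he h1 h2 fun e => (h3 e).resolve_right fun f => h ⟨e, f⟩
    by_cases d : p ∣ k
    · exact Z.suf4 hn hr hrn hp h1 (h2 ▸ pow_succ p _ ▸ mul_dvd_mul_left _ d)
    refine C.suf2 hn hp hr ?_ h1 ((Z.ord_iff hp.pos _).2 dvd_rfl) h2 (sq.resolve_left d).1
      (sq.resolve_left d).2
    have := Fact.mk hr
    exact isOfFinOrder_iff_pow_eq_one.2 ⟨r - 1, Nat.sub_pos_of_lt hr.one_lt,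
      ZMod.pow_card_sub_one_eq_one fun e => hrn (((ZMod.natCast_eq_zero_iff p r).1 e).trans
        (h2 ▸ (dvd_pow_self p (Nat.succ_ne_zero _)).mul_right k))⟩ |>.orderOf_pos
  tfae_finish

end Pool.Agent.Results.MP_6d14ae_al.SizeThreshold
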